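import Pool.Agent.Helper74.WCO.Split
import Pool.Agent.Helper74.WPP.Top

/-!
# The statement layer: conflicts of one kind split (helper74, after helper57's `TB/TopCo`)
-/

open Set BIC
open scoped Matroid

namespace BICS

universe u

open WPP in
/-- Theorem W-co++ in terms of the graph `G_n^+`. -/
theorem topWcopp {k : ℕ} (hk : 1 ≤ k) (q : ℕ) : ∃ n₀ : ℕ, ∀ n ≥ n₀,
    ∀ {α : Type u} (M : Matroid α) [M.Finite] (C₁ D₁ C₂ D₂ F G : Set α),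
    C₁ ⊆ M.E → D₁ ⊆ M.E → C₂ ⊆ M.E → D₂ ⊆ M.E → Disjoint C₁ D₁ → Disjoint C₂ D₂ →
    Disjoint (M.E \ (C₁ ∪ D₁)) (M.E \ (C₂ ∪ D₂)) →
    IsBicircular (M ／ C₁ ＼ D₁) (GPlus n) → IsBicircular (M✶ ／ D₂ ＼ C₂) (GPlus n) →
    D₁ ∩ C₂ = F ∪ G →
    rk (M ／ C₁) (M.E \ (C₁ ∪ D₁)) ≤ rk (M ／ (C₁ ∪ F)) (M.E \ (C₁ ∪ D₁)) + q →
    rk (M✶ ／ D₂) (M.E \ (C₂ ∪ D₂)) ≤ rk (M✶ ／ (D₂ ∪ G)) (M.E \ (C₂ ∪ D₂)) + q →
    KGe M (M.E \ (C₁ ∪ D₁)) (M.E \ (C₂ ∪ D₂)) n₀ → HasUniformMinor M k := by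
  obtain ⟨n₀, h₀⟩ := thmWcopp_part.{u} hk q
  refine ⟨n₀ + 2, ?_⟩
  intro n hn α M _ C₁ D₁ C₂ D₂ F G hC₁ hD₁ hC₂ hD₂ hCD₁ hCD₂ hdis hb₁ hb₂ hFG hdef₁ hdef₂ hK
  obtain ⟨e₁, hB₁, hG₁⟩ := show1 (by omega) hb₁
  obtain ⟨e₂, hB₂, hG₂⟩ := show1 (M := M✶) (by omega) hb₂
  rw [Matroid.dual_ground, union_comm D₂ C₂] at hB₂ hG₂
  have fin1 : ∀ A : Set α, (M✶ ／ A).Finite := fun A => BQ.fin_contract A
  refine h₀ n (by omega) M (M.E \ (C₁ ∪ D₁)) _ (M.E \ (C₂ ∪ D₂)) _ C₁ D₂ F (G \ F) e₁ e₂ _ _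
    0 0 0 0 sdiff_subset sdiff_subset hdis ?_ ?_ hB₁ hG₁.toGrdP hB₂ hG₂.toGrdP ?_ ?_ hdef₁ ?_ ?_
  · exact fun c hc => ⟨hC₁ hc, fun h => h.2 (Or.inl hc)⟩
  · exact fun d hd => ⟨hD₂ hd, fun h => h.2 (Or.inr hd)⟩
  · rw [union_sdiff_self, ← hFG]
    ext e
    simp only [mem_sdiff, mem_union, mem_inter_iff]
    constructor
    · rintro ⟨h1, h2⟩
      by_cases hc1 : e ∈ C₁
      · exact absurd (Or.inl (Or.inr hc1)) h2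
      by_cases hd2 : e ∈ D₂
      · exact absurd (Or.inr (Or.inr hd2)) h2
      by_cases hd1 : e ∈ D₁
      · by_cases hc2 : e ∈ C₂
        · exact ⟨hd1, hc2⟩
        · exact absurd (Or.inr (Or.inl ⟨h1, fun h => h.elim hc2 hd2⟩)) h2
      · exact absurd (Or.inl (Or.inl ⟨h1, fun h => h.elim hc1 hd1⟩)) h2
    · rintro ⟨hd1, hc2⟩
      refine ⟨hD₁ hd1, ?_⟩
      rintro ((⟨_, h3⟩ | h3) | (⟨_, h3⟩ | h3))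
      · exact h3 (Or.inr hd1)
      · exact Set.disjoint_left.1 hCD₁ h3 hd1
      · exact h3 (Or.inl hc2)
      · exact Set.disjoint_left.1 hCD₂ hc2 h3
  · exact disjoint_sdiff_right
  · have hGE : G ⊆ D₁ ∩ C₂ := by rw [hFG]; exact subset_union_right
    have h1 : rk (M✶ ／ (D₂ ∪ G)) (M.E \ (C₂ ∪ D₂)) ≤
        rk (M✶ ／ (D₂ ∪ (G \ F))) (M.E \ (C₂ ∪ D₂)) := by
      refine Quo.le (quo_mono (M := M✶) (E := M.E \ (C₂ ∪ D₂))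
        (union_subset_union_right _ sdiff_subset) ?_ ?_) (subset_refl _)
      · exact union_subset hD₂ (fun z hz => hC₂ (hGE hz).2)
      · rintro z ⟨hz1, hz2⟩
        refine ⟨hz1, ?_⟩
        rintro (h | h)
        · exact hz2 (Or.inr h)
        · exact hz2 (Or.inl (hGE h).2)
    omega
  · intro X h1 h2
    have := hK X h1 h2
    omega

/-- The statement of the hand-in: the conflicts of one of the two kinds split into two classes of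
bounded defect. -/
theorem one_kind_splits {k : ℕ} (hk : 1 ≤ k) (q : ℕ) : ∃ n : ℕ, ∀ (α : Type u)
    (M : Matroid α), M.Finite → ∀ C₁ D₁ C₂ D₂ : Set α,
    C₁ ⊆ M.E → D₁ ⊆ M.E → C₂ ⊆ M.E → D₂ ⊆ M.E → Disjoint C₁ D₁ → Disjoint C₂ D₂ →
    Disjoint (M ／ C₁ ＼ D₁).E (M ／ C₂ ＼ D₂).E →
    IsBicircular (M ／ C₁ ＼ D₁) (GPlus n) →
    IsBicircular (M ／ C₂ ＼ D₂)✶ (GPlus n) →
    (∀ X : Set α, (M ／ C₁ ＼ D₁).E ⊆ X → X ⊆ M.E \ (M ／ C₂ ＼ D₂).E →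
      (n : ℕ∞) + M.eRk M.E ≤ M.eRk X + M.eRk (M.E \ X)) →
    (∃ F G : Set α, C₁ ∩ D₂ = F ∪ G ∧
        (M ／ (C₁ \ F)).eRk (M ／ C₁ ＼ D₁).E ≤ (M ／ C₁).eRk (M ／ C₁ ＼ D₁).E + q ∧
        (M✶ ／ (D₂ \ G)).eRk (M ／ C₂ ＼ D₂).E ≤ (M✶ ／ D₂).eRk (M ／ C₂ ＼ D₂).E + q) ∨
      (∃ F G : Set α, D₁ ∩ C₂ = F ∪ G ∧
        (M ／ C₁).eRk (M ／ C₁ ＼ D₁).E ≤ (M ／ (C₁ ∪ F)).eRk (M ／ C₁ ＼ D₁).E + q ∧
        (M✶ ／ D₂).eRk (M ／ C₂ ＼ D₂).E ≤ (M✶ ／ (D₂ ∪ G)).eRk (M ／ C₂ ＼ D₂).E + q) →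
    ∃ N : Matroid α, N ≤m M ∧ N.E.ncard = 2 * k ∧ ∀ B, N.IsBase B ↔ B ⊆ N.E ∧ B.ncard = k := by
  obtain ⟨n₁, h₁⟩ := topWpp.{u} hk q
  obtain ⟨n₂, h₂⟩ := topWcopp.{u} hk q
  refine ⟨n₁ + n₂, ?_⟩
  intro α M hM C₁ D₁ C₂ D₂ hC₁ hD₁ hC₂ hD₂ hCD₁ hCD₂ hdis hb₁ hb₂ hκ hdef
  have g₁ : (M ／ C₁ ＼ D₁).E = M.E \ (C₁ ∪ D₁) := by
    rw [Matroid.delete_ground, Matroid.contract_ground, sdiff_sdiff]
  have g₂ : (M ／ C₂ ＼ D₂).E = M.E \ (C₂ ∪ D₂) := by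
    rw [Matroid.delete_ground, Matroid.contract_ground, sdiff_sdiff]
  have hd : (M ／ C₂ ＼ D₂)✶ = M✶ ／ D₂ ＼ C₂ := by
    rw [Matroid.dual_delete, Matroid.dual_contract, Matroid.contract_delete_comm _ hCD₂.symm]
  rw [g₁, g₂] at hdis hκ hdef
  rw [hd] at hb₂
  have fC : ∀ A : Set α, (M ／ A).Finite := fun A => ⟨M.ground_finite.subset sdiff_subset⟩
  have fD : ∀ A : Set α, (M✶ ／ A).Finite := fun A => ⟨M✶.ground_finite.subset sdiff_subset⟩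
  have hK : KGe M (M.E \ (C₁ ∪ D₁)) (M.E \ (C₂ ∪ D₂)) (n₁ + n₂) := by
    intro X h1 h2
    have h3 := hκ X h1 h2
    rw [← cast_rk, ← cast_rk, ← cast_rk] at h3
    exact_mod_cast h3
  rcases hdef with ⟨F, G, hFG, hdef₁, hdef₂⟩ | ⟨F, G, hFG, hdef₁, hdef₂⟩
  · have f1 := fC (C₁ \ F)
    have f2 := fC C₁
    have f3 := fD (D₂ \ G)
    have f4 := fD D₂
    refine h₁ (n₁ + n₂) (by omega) M C₁ D₁ C₂ D₂ F G hC₁ hD₂ hdis hb₁ hb₂ hFG.subset ?_ ?_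
      (BQ.KGe.mono_n hK (by omega))
    · rw [← cast_rk, ← cast_rk] at hdef₁
      exact_mod_cast hdef₁
    · rw [← cast_rk, ← cast_rk] at hdef₂
      exact_mod_cast hdef₂
  · have f1 := fC (C₁ ∪ F)
    have f2 := fC C₁
    have f3 := fD (D₂ ∪ G)
    have f4 := fD D₂
    refine h₂ (n₁ + n₂) (by omega) M C₁ D₁ C₂ D₂ F G hC₁ hD₁ hC₂ hD₂ hCD₁ hCD₂ hdis hb₁ hb₂ hFG
      ?_ ?_ (BQ.KGe.mono_n hK (by omega))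
    · rw [← cast_rk, ← cast_rk] at hdef₁
      exact_mod_cast hdef₁
    · rw [← cast_rk, ← cast_rk] at hdef₂
      exact_mod_cast hdef₂

end BICS
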