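import Pool.Agent.Helper53.BQ.Wco
import Pool.Agent.Helper53.BQ.W

/-!
# Theorem W-co, asymmetric form (helper74, after helper53's `thmWco_of`)

Side 2 is a plain grid of bounded side `m ≥ m₀(k)`; only side 1 has to be large against `q`.
-/

open Set BIC
open scoped Matroid

namespace BICS

universe u

theorem thmWcoA_of {k : ℕ} (hk : 1 ≤ k) (hStar : StarStmt.{u} k) : ∃ κ m₀ : ℕ, ∀ m ≥ m₀,
    ∀ q : ℕ, ∃ n₀ : ℕ, ∀ n ≥ n₀, ∀ {α : Type u} (M : Matroid α) [M.Finite]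
    (E₁ S₁ E₂ C₁ D₂ : Set α) (e₁ e₂ : α → Sym2 (ℕ × ℕ)) (w : ℕ × ℕ) (x y x' y' : ℕ),
    E₁ ⊆ M.E → E₂ ⊆ M.E → Disjoint E₁ E₂ → C₁ ⊆ M.E \ E₁ → D₂ ⊆ M.E \ E₂ →
    Bic (M ／ C₁) E₁ e₁ → GrdP E₁ S₁ e₁ w x y n → Bic (M✶ ／ D₂) E₂ e₂ →
    Grd E₂ e₂ x' y' m m →
    rk (M ／ C₁) E₁ ≤ rk (M ／ (C₁ ∪ (M.E \ (E₁ ∪ C₁ ∪ (E₂ ∪ D₂))))) E₁ + q →
    KGe M S₁ E₂ κ → HasUniformMinor M k := by
  obtain ⟨κ₀, hSP⟩ := thmSP.{u} k hk
  obtain ⟨KB, y₀, hBco⟩ := thmBco_of hk hStar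
  set K := KB + (κ₀ + 32 * (κ₀ + 1) ^ 2 + 1) with hKdef
  obtain ⟨s₀, hs₀⟩ := hSP K
  refine ⟨K, s₀ + y₀ + 4 * (K + 1) + 1, ?_⟩
  intro m hm q
  obtain ⟨nB, hnB⟩ := hBco (q + (m * m) * (m * m))
  refine ⟨nB + m + 2, ?_⟩
  intro n hn α M _ E₁ S₁ E₂ C₁ D₂ e₁ e₂ w x y x' y' hE₁ hE₂ hE hC₁ hD₂ hB₁ hG₁ hB₂ hG₂ hq hK
  have hC₁E : C₁ ⊆ M.E := hC₁.trans sdiff_subset
  have hD₂E : D₂ ⊆ M.E := hD₂.trans sdiff_subset
  have hE₁C : E₁ ⊆ M.E \ C₁ := fun x hx => ⟨hE₁ hx, fun h => (hC₁ h).2 hx⟩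
  have hS₁E₁ : S₁ ⊆ E₁ := hG₁.sub
  have hS₁E : S₁ ⊆ M.E := hS₁E₁.trans hE₁
  have fin1 : (M ／ C₁).Finite := BQ.fin_contract C₁
  have fin1' : (M✶ ／ D₂).Finite := BQ.fin_contract D₂
  have hrec1 : rect x y m m ⊆ rect x y n n :=
    rect_sub (le_refl _) (by omega) (le_refl _) (by omega)
  have hYd : Disjoint S₁ E₂ := hE.mono_left hS₁E₁
  have k3 : KGe M✶ E₂ S₁ K := hK.dual hS₁E
  set P := D₂ \ (E₁ ∪ C₁) with hP
  have hPF : P ⊆ D₂ := sdiff_subset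
  have hPE : P ⊆ M✶.E \ (E₂ ∪ S₁) := by
    rintro z ⟨hz1, hz2⟩
    refine ⟨hD₂E hz1, ?_⟩
    rintro (hz3 | hz3)
    · exact (hD₂ hz1).2 hz3
    · exact hz2 (Or.inl (hS₁E₁ hz3))
  -- the structures in every stage
  have stage : ∀ P' ⊆ P, (M ＼ P').Finite ∧ E₁ ⊆ (M ＼ P').E ∧ E₂ ⊆ (M ＼ P').E ∧
      C₁ ⊆ (M ＼ P').E \ E₁ ∧ D₂ \ P' ⊆ (M ＼ P').E \ E₂ ∧ (M ＼ P')✶ = M✶ ／ P' ∧
      Bic (M ＼ P' ／ C₁) E₁ e₁ ∧ Bic ((M ＼ P')✶ ／ (D₂ \ P')) E₂ e₂ ∧ M ＼ P' ≤m M := by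
    intro P' hP'
    have fin2 : (M ＼ P').Finite := BQ.fin_delete P'
    have hE₁P : E₁ ⊆ (M ＼ P').E := fun z hz => ⟨hE₁ hz, fun h => (hP' h).2 (Or.inl hz)⟩
    have hYP : E₂ ⊆ (M ＼ P').E := fun z hz =>
      ⟨hE₂ hz, fun h => (hD₂ (hPF (hP' h))).2 hz⟩
    have hdual : (M ＼ P')✶ = M✶ ／ P' := Matroid.dual_delete M P'
    refine ⟨fin2, hE₁P, hYP, ?_, ?_, hdual, ?_, ?_, ?_⟩
    · exact fun z hz => ⟨⟨hC₁E hz, fun h => (hP' h).2 (Or.inr hz)⟩, (hC₁ hz).2⟩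
    · rintro z ⟨hz1, hz2⟩
      exact ⟨⟨hD₂E hz1, hz2⟩, (hD₂ hz1).2⟩
    · have hdd : Disjoint C₁ P' := by
        rw [Set.disjoint_left]
        exact fun z hz hz2 => (hP' hz2).2 (Or.inr hz)
      have c2 : M ＼ P' ／ C₁ = M ／ C₁ ＼ P' := by
        rw [Matroid.contract_delete_comm M hdd]
      rw [c2]
      have fin3 : (M ／ C₁ ＼ P').Finite := BQ.fin_delete P'
      have hY1 : E₁ ⊆ (M ／ C₁).E \ P' := fun z hz => ⟨hE₁C hz, fun h => (hP' h).2 (Or.inl hz)⟩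
      refine Bic_of_rk hB₁ hY1 ?_
      intro X hX
      rw [rk_delete (hX.trans hY1)]
    · rw [hdual, Matroid.contract_contract, union_sdiff_self,
        union_eq_self_of_subset_left (hP'.trans hPF)]
      exact hB₂
    · have := Matroid.contract_delete_isMinor M ∅ P'
      rwa [Matroid.contract_empty] at this
  rcases cont (M := M✶) (X := E₂) (Y := S₁) (by exact hE₂) (by exact hS₁E) hYd.symm hPE k3 with
    ⟨P', hP', ka, kb⟩ | ka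
  · -- sparse case
    obtain ⟨fin2, s1, s2, s3, s4, s5, s6, s7, s8⟩ := stage P' hP'
    rw [← s5] at ka kb
    have fin2' : (M ＼ P')✶.Finite := by infer_instance
    have ka' : KGe (M ＼ P') S₁ E₂ K := by
      have := ka.dual (by exact s2)
      rwa [Matroid.dual_dual] at this
    set R := blk S₁ e₁ x y m with hR
    have hRS₁ : R ⊆ S₁ := blk_sub
    have hRE₁ : R ⊆ E₁ := hRS₁.trans hS₁E₁
    refine hum_mono s8 (hs₀ m (by omega) m (by omega) (M ＼ P') R E₂ C₁ (D₂ \ P') (hRE₁.trans s1) s2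
      (hYd.mono_left hRS₁) ?_ s4 ?_ ?_ ?_ ?_)
    · exact fun z hz => ⟨(s3 hz).1, fun h => (s3 hz).2 (hRE₁ h)⟩
    · exact Grd.toPGrid (by omega) (Bic_sub s6 hRE₁) (Grd_sub hG₁.grd hrec1)
    · exact Grd.toPGrid (by omega) s7 hG₂
    · refine BQ.KGe.mono_n (BQ.kge_blk (t := κ₀) (C := C₁) (M := M ＼ P') ?_ (hS₁E₁.trans s1) hYd
        (Bic_sub s6 hS₁E₁) hG₁.grd hrec1 (by omega) (BQ.KGe.mono_n ka' (by omega))) (by omega)
      exact fun z hz => ⟨(s3 hz).1, fun h => (s3 hz).2 (hS₁E₁ h)⟩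
    · intro hcon
      exact kb ((BQ.KGe.mono_left hcon hRS₁).dual (hS₁E₁.trans s1))
  · -- bounded defect
    obtain ⟨fin2, s1, s2, s3, s4, s5, s6, s7, s8⟩ := stage P (subset_refl _)
    rw [← s5] at ka
    have fin2' : (M ＼ P)✶.Finite := by infer_instance
    have ka' : KGe (M ＼ P) S₁ E₂ (K + 1) := by
      have := ka.dual (by exact s2)
      rwa [Matroid.dual_dual] at this
    refine hum_mono s8 (hnB n m (by omega) (by omega) (M ＼ P) E₁ S₁ E₂ C₁ (D₂ \ P) e₁ e₂ w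
      x y x' y' s1 s2 hE s3 s4 s6 hG₁ s7 hG₂ ?_
      (BQ.KGe.mono_n ka' (by omega)))
    set B := C₁ ∪ (M.E \ (E₁ ∪ C₁ ∪ (E₂ ∪ D₂))) with hBdef
    have hBE : B ⊆ M.E := union_subset hC₁E sdiff_subset
    set G := (M.E \ P) \ E₁ with hG
    have hGE : G ⊆ M.E := sdiff_subset.trans sdiff_subset
    have hYf : E₂.Finite := M.ground_finite.subset hE₂
    have hGB : G ⊆ B ∪ E₂ := by
      rintro z ⟨⟨hz1, hz2⟩, hz3⟩
      by_cases hc : z ∈ C₁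
      · exact Or.inl (Or.inl hc)
      by_cases hzY : z ∈ E₂
      · exact Or.inr hzY
      left; right
      refine ⟨hz1, ?_⟩
      rintro ((h | h) | (h | h))
      · exact hz3 h
      · exact hc h
      · exact hzY h
      · exact hz2 ⟨h, fun h' => h'.elim hz3 hc⟩
    have hYc : E₂.ncard ≤ (m * m) * (m * m) := by
      have h1 := blk_ncard_le hG₂.inj x' y' m
      rwa [show blk E₂ e₂ x' y' m = E₂ from Grd_ins_self hG₂] at h1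
    -- ranks
    have r1 : rk (M ＼ P ／ C₁) E₁ + rk (M ＼ P) C₁ = rk (M ＼ P) (E₁ ∪ C₁) :=
      BQ.rk_con (M := M ＼ P) (C := C₁) (X := E₁) (s3.trans sdiff_subset)
        (fun z hz => ⟨s1 hz, fun h => (s3 h).2 hz⟩)
    have r2 := BQ.rk_con (M := M ＼ P) (C := (M ＼ P).E \ E₁) (X := E₁) sdiff_subset
        (fun z hz => ⟨s1 hz, fun h => h.2 hz⟩)
    have r3 := BQ.rk_con (M := M) (C := C₁) (X := E₁) hC₁E hE₁C
    have hE₁B : E₁ ⊆ M.E \ B := by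
      intro z hz
      refine ⟨hE₁ hz, ?_⟩
      rintro (h | h)
      · exact (hC₁ h).2 hz
      · exact h.2 (Or.inl (Or.inl hz))
    have r4 := BQ.rk_con (M := M) (C := B) (X := E₁) hBE hE₁B
    have d1 : rk (M ＼ P) C₁ = rk M C₁ := rk_delete (s3.trans sdiff_subset)
    have d2 : rk (M ＼ P) (E₁ ∪ C₁) = rk M (E₁ ∪ C₁) :=
      rk_delete (union_subset s1 (s3.trans sdiff_subset))
    have hGeq : (M ＼ P).E \ E₁ = G := rfl
    rw [hGeq] at r2 ⊢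
    have d3 : rk (M ＼ P) G = rk M G := rk_delete sdiff_subset
    have d4 : rk (M ＼ P) (E₁ ∪ G) = rk M (E₁ ∪ G) :=
      rk_delete (union_subset s1 sdiff_subset)
    have t1 := rk_submod M (E₁ ∪ G) (B ∪ E₂)
    have t2 : rk M G ≤ rk M ((E₁ ∪ G) ∩ (B ∪ E₂)) :=
      rk_mono M (fun z hz => ⟨Or.inr hz, hGB hz⟩)
    have t3 : rk M (E₁ ∪ B) ≤ rk M ((E₁ ∪ G) ∪ (B ∪ E₂)) :=
      rk_mono M (union_subset_union subset_union_left subset_union_left)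
    have t4 : rk M (B ∪ E₂) ≤ rk M B + E₂.ncard := rk_union_le M hYf
    omega

end BICS
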