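import Pool.Agent.Helper74.WCO.StarS
import Pool.Agent.Helper74.WCO.Asym
import Pool.Agent.Helper74.WPP.Side

/-!
# Theorem W-co++ : the conflicts of the second kind split (helper74, MP_5165fa_co)

`D₁ ∩ C₂ = F ∪ G`: contracting `F` for `N₁` costs side 1 at most `q`, deleting `G` for `N₂` costs
side 2 at most `q`.
-/

open Set BIC
open scoped Matroid

namespace BICS

universe u

namespace WCO

variable {α : Type u}

/-- rank in `M✶ ／ D₂` of subsets of `E₂` -/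
lemma rk_side2 {M : Matroid α} [M.Finite] {E₂ D₂ : Set α} (hE₂ : E₂ ⊆ M.E) (hD₂ : D₂ ⊆ M.E \ E₂)
    {A : Set α} (hA : A ⊆ E₂) :
    rk (M✶ ／ D₂) A + rk M ((M.E \ (E₂ ∪ D₂)) ∪ E₂) =
      A.ncard + rk M ((M.E \ (E₂ ∪ D₂)) ∪ (E₂ \ A)) := by
  have hD₂E : D₂ ⊆ M.E := hD₂.trans sdiff_subset
  have hAE : A ⊆ M.E := hA.trans hE₂
  have h1 := BQ.rk_con (M := M✶) (C := D₂) (X := A) (by exact hD₂E)
    (fun z hz => ⟨hAE hz, fun h => (hD₂ h).2 (hA hz)⟩)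
  have h2 := rk_dual (M := M) (X := A ∪ D₂) (union_subset hAE hD₂E)
  have h3 := rk_dual (M := M) (X := D₂) hD₂E
  have hf1 : A.Finite := M.ground_finite.subset hAE
  have hf2 : D₂.Finite := M.ground_finite.subset hD₂E
  have h4 : (A ∪ D₂).ncard = A.ncard + D₂.ncard := by
    refine ncard_union_eq ?_ hf1 hf2
    rw [Set.disjoint_left]
    exact fun z hz h => (hD₂ h).2 (hA hz)
  have e1 : M.E \ (A ∪ D₂) = (M.E \ (E₂ ∪ D₂)) ∪ (E₂ \ A) := by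
    ext z
    simp only [mem_union, mem_sdiff, not_or]
    constructor
    · rintro ⟨a, b, c⟩
      by_cases hz : z ∈ E₂
      · exact Or.inr ⟨hz, b⟩
      · exact Or.inl ⟨a, hz, c⟩
    · rintro (⟨a, b, c⟩ | ⟨a, b⟩)
      · exact ⟨a, fun h => b (hA h), c⟩
      · exact ⟨hE₂ a, b, fun h => (hD₂ h).2 a⟩
  have e2 : M.E \ D₂ = (M.E \ (E₂ ∪ D₂)) ∪ E₂ := by
    ext z
    simp only [mem_union, mem_sdiff, not_or]
    constructor
    · rintro ⟨a, b⟩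
      by_cases hz : z ∈ E₂
      · exact Or.inr hz
      · exact Or.inl ⟨a, hz, b⟩
    · rintro (⟨a, b, c⟩ | a)
      · exact ⟨a, c⟩
      · exact ⟨hE₂ a, fun h => (hD₂ h).2 a⟩
  rw [e1] at h2
  rw [e2] at h3
  omega

/-- The plain part of a clean square of side 2, in the stage `M ＼ G'`. -/
lemma stage_co {M : Matroid α} [M.Finite] {E₂ D₂ G' Z : Set α} {ends : α → Sym2 (ℕ × ℕ)}
    {σ : Set (ℕ × ℕ)} (hE₂ : E₂ ⊆ M.E) (hD₂ : D₂ ⊆ M.E \ E₂) (hB : Bic (M✶ ／ D₂) E₂ ends)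
    (hZ : Z ⊆ E₂) (hZσ : Disjoint Z (pl E₂ ends σ)) (hG' : G' ⊆ M.E \ (E₂ ∪ D₂))
    (h : ∀ X ⊆ pl E₂ ends σ, rk (M ／ ((M.E \ (E₂ ∪ D₂)) \ G')) (X ∪ Z) =
      rk (M ／ (M.E \ (E₂ ∪ D₂))) X + rk (M ／ ((M.E \ (E₂ ∪ D₂)) \ G')) Z) :
    Bic (M✶ ／ (G' ∪ (D₂ ∪ (E₂ \ (Z ∪ pl E₂ ends σ))))) (ins E₂ ends σ) ends := by
  set W := pl E₂ ends σ with hW
  set C₂ := M.E \ (E₂ ∪ D₂) with hC₂
  have f2 : (M✶ ／ (G' ∪ (D₂ ∪ (E₂ \ (Z ∪ W))))).Finite := BQ.fin_contract _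
  have fD : (M✶ ／ D₂).Finite := BQ.fin_contract _
  have hWE : W ⊆ E₂ := pl_sub
  have hD₂E : D₂ ⊆ M.E := hD₂.trans sdiff_subset
  have hWf : W.Finite := M.ground_finite.subset (hWE.trans hE₂)
  have hs1 : ins E₂ ends σ ⊆ W := by
    rintro e ⟨he, h⟩
    refine ⟨he, ?_⟩
    induction hh : ends e with
    | _ p q =>
      exact ⟨p, h p (by rw [hh]; simp), by simp⟩
  have hcompl : E₂ \ W ⊆ ins E₂ ends σᶜ := by
    rintro e ⟨he, h⟩
    exact ⟨he, fun v hv hvσ => h ⟨he, v, hvσ, hv⟩⟩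
  have hgE : G' ∪ (D₂ ∪ (E₂ \ (Z ∪ W))) ⊆ M.E := by
    rintro z (hz | hz | hz)
    · exact (hG' hz).1
    · exact hD₂E hz
    · exact hE₂ hz.1
  have hg : ins E₂ ends σ ⊆ (M✶ ／ (G' ∪ (D₂ ∪ (E₂ \ (Z ∪ W))))).E := by
    intro e he
    refine ⟨hE₂ he.1, ?_⟩
    rintro (hz | hz | hz)
    · exact (hG' hz).2 (Or.inl he.1)
    · exact (hD₂ hz).2 he.1
    · exact hz.2 (Or.inr (hs1 he))
  refine Bic_of_rk (Bic_sub hB (fun _ he => he.1)) hg ?_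
  intro A hA
  have hAW : A ⊆ W := hA.trans hs1
  have hAE : A ⊆ M.E := (hAW.trans hWE).trans hE₂
  have hAf : A.Finite := M.ground_finite.subset hAE
  -- the left-hand side
  have g0 := BQ.rk_con (M := M✶) (C := G' ∪ (D₂ ∪ (E₂ \ (Z ∪ W)))) (X := A) (by exact hgE)
    (hA.trans hg)
  have g1 := rk_dual (M := M) (X := A ∪ (G' ∪ (D₂ ∪ (E₂ \ (Z ∪ W))))) (union_subset hAE hgE)
  have g2 := rk_dual (M := M) (X := G' ∪ (D₂ ∪ (E₂ \ (Z ∪ W)))) hgE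
  have n0 : (A ∪ (G' ∪ (D₂ ∪ (E₂ \ (Z ∪ W))))).ncard =
      A.ncard + (G' ∪ (D₂ ∪ (E₂ \ (Z ∪ W)))).ncard := by
    refine ncard_union_eq ?_ hAf (M.ground_finite.subset hgE)
    rw [Set.disjoint_left]
    intro z hz h'
    exact (hg (hA hz)).2 h'
  have e1 : M.E \ (A ∪ (G' ∪ (D₂ ∪ (E₂ \ (Z ∪ W))))) = ((W \ A) ∪ Z) ∪ (C₂ \ G') := by
    ext z
    simp only [mem_union, mem_sdiff, not_or, not_and, not_not, hC₂]
    constructor
    · rintro ⟨a, b, c, d, e⟩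
      by_cases hz : z ∈ E₂
      · by_cases hz' : z ∈ Z
        · exact Or.inl (Or.inr hz')
        · exact Or.inl (Or.inl ⟨e hz hz', b⟩)
      · exact Or.inr ⟨⟨a, hz, d⟩, c⟩
    · rintro ((⟨a, b⟩ | a) | ⟨⟨a, b, c⟩, d⟩)
      · exact ⟨hE₂ (hWE a), b, fun h' => (hG' h').2 (Or.inl (hWE a)), fun h' => (hD₂ h').2 (hWE a),
          fun _ _ => a⟩
      · exact ⟨hE₂ (hZ a), fun h' => Set.disjoint_left.1 hZσ a (hAW h'),
          fun h' => (hG' h').2 (Or.inl (hZ a)), fun h' => (hD₂ h').2 (hZ a), fun _ h'' => absurd a h''⟩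
      · exact ⟨a, fun h' => b (hWE (hAW h')), d, c, fun h' => absurd h' b⟩
  have e2 : M.E \ (G' ∪ (D₂ ∪ (E₂ \ (Z ∪ W)))) = (W ∪ Z) ∪ (C₂ \ G') := by
    ext z
    simp only [mem_union, mem_sdiff, not_or, not_and, not_not, hC₂]
    constructor
    · rintro ⟨a, c, d, e⟩
      by_cases hz : z ∈ E₂
      · by_cases hz' : z ∈ Z
        · exact Or.inl (Or.inr hz')
        · exact Or.inl (Or.inl (e hz hz'))
      · exact Or.inr ⟨⟨a, hz, d⟩, c⟩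
    · rintro ((a | a) | ⟨⟨a, b, c⟩, d⟩)
      · exact ⟨hE₂ (hWE a), fun h' => (hG' h').2 (Or.inl (hWE a)), fun h' => (hD₂ h').2 (hWE a),
          fun _ _ => a⟩
      · exact ⟨hE₂ (hZ a), fun h' => (hG' h').2 (Or.inl (hZ a)), fun h' => (hD₂ h').2 (hZ a),
          fun _ h'' => absurd a h''⟩
      · exact ⟨a, d, c, fun h' => absurd h' b⟩
  rw [e1] at g1
  rw [e2] at g2
  -- ranks in `M ／ (C₂ \ G')`
  have hC₂E : C₂ ⊆ M.E := sdiff_subset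
  have hCG : C₂ \ G' ⊆ M.E := sdiff_subset.trans hC₂E
  have hsub : ∀ X ⊆ E₂, X ⊆ M.E \ (C₂ \ G') := fun X hX z hz =>
    ⟨hE₂ (hX hz), fun h' => h'.1.2 (Or.inl (hX hz))⟩
  have hsub2 : ∀ X ⊆ E₂, X ⊆ M.E \ C₂ := fun X hX z hz =>
    ⟨hE₂ (hX hz), fun h' => h'.2 (Or.inl (hX hz))⟩
  have a1 := h (W \ A) sdiff_subset
  have a2 := h W (subset_refl _)
  have b1 := BQ.rk_con (M := M) (C := C₂ \ G') (X := (W \ A) ∪ Z) hCG
    (hsub _ (union_subset (sdiff_subset.trans hWE) hZ))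
  have b2 := BQ.rk_con (M := M) (C := C₂ \ G') (X := W ∪ Z) hCG
    (hsub _ (union_subset hWE hZ))
  have c1 := BQ.rk_con (M := M) (C := C₂) (X := W \ A) hC₂E (hsub2 _ (sdiff_subset.trans hWE))
  have c2 := BQ.rk_con (M := M) (C := C₂) (X := W) hC₂E (hsub2 _ hWE)
  -- the right-hand side
  have d1 := rk_side2 hE₂ hD₂ (A := E₂ \ (W \ A)) sdiff_subset
  have d2 := rk_side2 hE₂ hD₂ (A := E₂ \ W) sdiff_subset
  rw [← hC₂] at d1 d2
  have x1 : E₂ \ (E₂ \ (W \ A)) = W \ A := sdiff_sdiff_cancel_left (sdiff_subset.trans hWE)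
  have x2 : E₂ \ (E₂ \ W) = W := sdiff_sdiff_cancel_left hWE
  rw [x1, union_comm C₂ (W \ A)] at d1
  rw [x2, union_comm C₂ W] at d2
  have x3 : E₂ \ (W \ A) = A ∪ E₂ \ W := by
    ext z
    simp only [mem_union, mem_sdiff, not_and, not_not]
    constructor
    · rintro ⟨h1, h2⟩
      by_cases hz : z ∈ W
      · exact Or.inl (h2 hz)
      · exact Or.inr ⟨h1, hz⟩
    · rintro (h | h)
      · exact ⟨hWE (hAW h), fun _ => h⟩
      · exact ⟨h.1, fun hz => absurd hz h.2⟩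
  have sk := rk_skew hB (V₁ := σ) (V₂ := σᶜ) disjoint_compl_right hA hcompl
  have x4 : (A ∪ E₂ \ W).ncard = A.ncard + (E₂ \ W).ncard := by
    refine ncard_union_eq ?_ hAf (M.ground_finite.subset (sdiff_subset.trans hE₂))
    rw [Set.disjoint_left]
    exact fun z hz h' => h'.2 (hAW hz)
  rw [x3, sk, x4] at d1
  omega

end WCO

end BICS
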