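import Pool.Agent.Helper74.WCO.Main
import Pool.Agent.Helper34.EXT.Ext

/-!
# Theorem W-co++ (helper74, MP_5165fa_co)
-/

open Set BIC
open scoped Matroid

namespace BICS

universe u

theorem starStmt (k : ℕ) (hk : 1 ≤ k) : StarStmt.{u} k := fun q t =>
  thmStar_of'.{u} k (thmExt.{u} k hk) q t

open WPP WCO in
/-- **Theorem W-co++**, for a partition of the conflicts of the second kind. -/
theorem thmWcopp_part {k : ℕ} (hk : 1 ≤ k) (q : ℕ) : ∃ n₀ : ℕ, ∀ n ≥ n₀,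
    ∀ {α : Type u} (M : Matroid α) [M.Finite] (E₁ S₁ E₂ S₂ C₁ D₂ F G : Set α)
    (e₁ e₂ : α → Sym2 (ℕ × ℕ)) (w₁ w₂ : ℕ × ℕ) (x y x' y' : ℕ), E₁ ⊆ M.E → E₂ ⊆ M.E →
    Disjoint E₁ E₂ → C₁ ⊆ M.E \ E₁ → D₂ ⊆ M.E \ E₂ → Bic (M ／ C₁) E₁ e₁ →
    GrdP E₁ S₁ e₁ w₁ x y n → Bic (M✶ ／ D₂) E₂ e₂ → GrdP E₂ S₂ e₂ w₂ x' y' n →
    M.E \ (E₁ ∪ C₁ ∪ (E₂ ∪ D₂)) = F ∪ G → Disjoint F G →
    rk (M ／ C₁) E₁ ≤ rk (M ／ (C₁ ∪ F)) E₁ + q →
    rk (M✶ ／ D₂) E₂ ≤ rk (M✶ ／ (D₂ ∪ G)) E₂ + q →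
    KGe M E₁ E₂ n₀ → HasUniformMinor M k := by
  obtain ⟨κ₀, hSP⟩ := thmSP.{u} k hk
  obtain ⟨κA, mA, hA⟩ := thmWcoA_of.{u} hk (starStmt.{u} k hk)
  set K := κA + (κ₀ + 32 * (κ₀ + 1) ^ 2 + 1) with hKdef
  obtain ⟨s₀, hs₀⟩ := hSP K
  set t := mA + s₀ + 4 * (K + 1) + 2 with ht
  set qY := (t * t) * ((t + 2) * (t + 2) + 1) with hqY
  obtain ⟨nS, hnS⟩ := thmStarS_of.{u} k q t (thmExt.{u} k hk)
  obtain ⟨nA, hnA⟩ := hA t (by omega) (q + (5 * k + qY))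
  refine ⟨nS + nA + t + 3 + 2 * (2 * (K + 32 * (K + 1) ^ 2 + 1)), ?_⟩
  intro n hn α M _ E₁ S₁ E₂ S₂ C₁ D₂ F G e₁ e₂ w₁ w₂ x y x' y' hE₁ hE₂ hE hC₁ hD₂ hB₁ hG₁ hB₂
    hG₂ hFG hdFG hq1 hq2 hK
  have hC₁E : C₁ ⊆ M.E := hC₁.trans sdiff_subset
  have hD₂E : D₂ ⊆ M.E := hD₂.trans sdiff_subset
  have hE₁C : E₁ ⊆ M.E \ C₁ := fun x hx => ⟨hE₁ hx, fun h => (hC₁ h).2 hx⟩
  have hE₂D : E₂ ⊆ M✶.E \ D₂ := fun x hx => ⟨hE₂ hx, fun h => (hD₂ h).2 hx⟩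
  have hS₁E₁ : S₁ ⊆ E₁ := hG₁.sub
  have hS₂E₂ : S₂ ⊆ E₂ := hG₂.sub
  have hS₁E : S₁ ⊆ M.E := hS₁E₁.trans hE₁
  have hFc : ∀ z ∈ F, z ∈ M.E ∧ z ∉ E₁ ∧ z ∉ C₁ ∧ z ∉ E₂ ∧ z ∉ D₂ := by
    intro z hz
    have h : z ∈ M.E \ (E₁ ∪ C₁ ∪ (E₂ ∪ D₂)) := by rw [hFG]; exact Or.inl hz
    exact ⟨h.1, fun h' => h.2 (Or.inl (Or.inl h')), fun h' => h.2 (Or.inl (Or.inr h')),
      fun h' => h.2 (Or.inr (Or.inl h')), fun h' => h.2 (Or.inr (Or.inr h'))⟩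
  have hGc : ∀ z ∈ G, z ∈ M.E ∧ z ∉ E₁ ∧ z ∉ C₁ ∧ z ∉ E₂ ∧ z ∉ D₂ := by
    intro z hz
    have h : z ∈ M.E \ (E₁ ∪ C₁ ∪ (E₂ ∪ D₂)) := by rw [hFG]; exact Or.inr hz
    exact ⟨h.1, fun h' => h.2 (Or.inl (Or.inl h')), fun h' => h.2 (Or.inl (Or.inr h')),
      fun h' => h.2 (Or.inr (Or.inl h')), fun h' => h.2 (Or.inr (Or.inr h'))⟩
  have hGE : G ⊆ M.E := fun z hz => (hGc z hz).1
  set C₂ := M.E \ (E₂ ∪ D₂) with hC₂
  have hGC₂ : G ⊆ C₂ := fun z hz => ⟨hGE hz, fun h => h.elim (hGc z hz).2.2.2.1 (hGc z hz).2.2.2.2⟩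
  have fin1 : (M ／ C₁).Finite := BQ.fin_contract C₁
  have fin1' : (M✶ ／ D₂).Finite := BQ.fin_contract D₂
  have finC : ∀ A : Set α, (M ／ A).Finite := fun A => BQ.fin_contract A
  -- connectivity of the plain parts
  have k1 : KGe M S₁ E₂ (2 * (K + 32 * (K + 1) ^ 2 + 1)) :=
    star1P (by omega) hC₁E hE₁C hB₁ hG₁ hE (BQ.KGe.mono_n hK (by omega))
  have k2 : KGe M✶ S₂ S₁ (K + 32 * (K + 1) ^ 2 + 1) :=
    star1P (M := M✶) (by omega) (by exact hD₂E) hE₂D hB₂ hG₂ (hE.symm.mono_right hS₁E₁)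
      (k1.dual hS₁E)
  -- cleaning side 2
  set P : Matroid α := M✶ ／ D₂ ＼ (C₂ \ G) with hPdef
  have finP : P.Finite := BQ.fin_delete (M := M✶ ／ D₂) (C₂ \ G)
  have hPE : P.E = E₂ ∪ G := by
    rw [hPdef, Matroid.delete_ground, Matroid.contract_ground, Matroid.dual_ground]
    ext z
    simp only [mem_sdiff, mem_union, hC₂, not_and, not_not, not_or]
    constructor
    · rintro ⟨⟨a, b⟩, c⟩
      by_cases hz : z ∈ E₂
      · exact Or.inl hz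
      · exact Or.inr (c ⟨a, hz, b⟩)
    · rintro (h | h)
      · exact ⟨⟨hE₂ h, fun h' => (hD₂ h').2 h⟩, fun h' => absurd h h'.2.1⟩
      · exact ⟨⟨hGE h, (hGc z h).2.2.2.2⟩, fun _ => h⟩
  have hE₂P : E₂ ⊆ P.E := by rw [hPE]; exact subset_union_left
  have rP : ∀ A ⊆ E₂ ∪ G, rk P A = rk (M✶ ／ D₂) A := by
    intro A hA
    refine rk_delete ?_
    intro z hz
    have h1 : z ∈ P.E := by rw [hPE]; exact hA hz
    exact h1
  have hBP : Bic P E₂ e₂ := Bic_of_rk hB₂ hE₂P (fun X hX => rP X (hX.trans subset_union_left))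
  have hPG : P.E \ E₂ = G := by
    rw [hPE, union_sdiff_left]
    refine sdiff_eq_self_iff_disjoint.2 ?_
    rw [Set.disjoint_left]
    exact fun z hz h => (hGc z h).2.2.2.1 hz
  have hdefP : rk P E₂ + rk P (P.E \ E₂) ≤ rk P P.E + q := by
    rw [hPG, hPE, rP _ subset_union_left, rP _ subset_union_right, rP _ (subset_refl _)]
    have h1 := BQ.rk_con (M := M✶ ／ D₂) (C := G) (X := E₂)
      (fun z hz => ⟨hGE hz, (hGc z hz).2.2.2.2⟩)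
      (fun z hz => ⟨hE₂D hz, fun h => (hGc z h).2.2.2.1 hz⟩)
    rw [Matroid.contract_contract] at h1
    omega
  have hPmin : P ≤m M✶ := Matroid.contract_delete_isMinor _ _ _
  rcases hnS n (by omega) P E₂ S₂ e₂ w₂ x' y' hE₂P hBP hG₂ hdefP with
    hU | ⟨Z, hZ, hZc, a, b, hr, hdZ, hsk, hcl⟩
  · exact hum_dual (hum_mono hPmin hU)
  set σ := rect a b t t with hσ
  set Y := pl E₂ e₂ σ with hYdef
  have hYE₂ : Y ⊆ E₂ := pl_sub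
  have hYE : Y ⊆ M.E := hYE₂.trans hE₂
  have hZE : Z ⊆ M.E := hZ.trans hE₂
  have hYf : Y.Finite := M.ground_finite.subset hYE
  have hZf : Z.Finite := M.ground_finite.subset hZE
  have hC₂E : C₂ ⊆ M.E := sdiff_subset
  -- translation of the conclusions to `M`
  have rP2 : ∀ A ⊆ E₂, rk P A + rk M (C₂ ∪ E₂) = A.ncard + rk M (C₂ ∪ (E₂ \ A)) := by
    intro A hA
    rw [rP A (hA.trans subset_union_left)]
    exact rk_side2 hE₂ hD₂ hA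
  have hPdual : ∀ A ⊆ E₂, rk P✶ A = rk (M ／ (C₂ \ G)) A := by
    intro A hA
    have e1 : P✶ = M ＼ D₂ ／ (C₂ \ G) := by
      rw [hPdef, Matroid.dual_contract_delete, Matroid.dual_dual]
    have e2 : M ＼ D₂ ／ (C₂ \ G) = M ／ (C₂ \ G) ＼ D₂ := by
      rw [Matroid.contract_delete_comm]
      rw [Set.disjoint_left]
      exact fun z hz h => hz.1.2 (Or.inr h)
    rw [e1, e2]
    refine rk_delete ?_
    intro z hz
    exact ⟨⟨hE₂ (hA hz), fun h => h.1.2 (Or.inl (hA hz))⟩, fun h => (hD₂ h).2 (hA hz)⟩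
  have hsub2 : ∀ X ⊆ E₂, X ⊆ M.E \ C₂ := fun X hX z hz =>
    ⟨hE₂ (hX hz), fun h' => h'.2 (Or.inl (hX hz))⟩
  have hrC : ∀ X ⊆ E₂, rk (M ／ C₂) X + rk M C₂ = rk M (X ∪ C₂) := fun X hX =>
    BQ.rk_con (M := M) (C := C₂) (X := X) hC₂E (hsub2 X hX)
  have hncard : ∀ X ⊆ E₂, (E₂ \ X).ncard + X.ncard = E₂.ncard := fun X hX =>
    Set.ncard_sdiff_add_ncard_of_subset hX (M.ground_finite.subset hE₂)
  -- rank of `E₂ \ X` in `P` in terms of the first matroid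
  have hEX : ∀ X ⊆ E₂, rk P (E₂ \ X) + rk M (C₂ ∪ E₂) + X.ncard =
      E₂.ncard + rk (M ／ C₂) X + rk M C₂ := by
    intro X hX
    have h1 := rP2 (E₂ \ X) sdiff_subset
    rw [sdiff_sdiff_cancel_left hX, union_comm C₂ X] at h1
    have h2 := hrC X hX
    have h3 := hncard X hX
    omega
  have hE0 : rk P E₂ + rk M (C₂ ∪ E₂) = E₂.ncard + rk M C₂ := by
    have h1 := rP2 E₂ (subset_refl _)
    rwa [sdiff_self, union_empty] at h1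
  have hs' : ∀ X ⊆ Y, rk (M ／ C₂) (X ∪ Z) = rk (M ／ C₂) X + rk (M ／ C₂) Z := by
    intro X hX
    have hXE : X ⊆ E₂ := hX.trans hYE₂
    have h1 := hsk X hX
    have h2 := hEX (X ∪ Z) (union_subset hXE hZ)
    have h3 := hEX X hXE
    have h4 := hEX Z hZ
    have h5 : (X ∪ Z).ncard = X.ncard + Z.ncard :=
      ncard_union_eq (hdZ.symm.mono_left hX) (hYf.subset hX) hZf
    omega
  have hL' : ∀ X ⊆ Y, rk (M ／ (C₂ \ G)) (X ∪ Z) = rk (M ／ C₂) X + rk (M ／ (C₂ \ G)) Z := by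
    intro X hX
    have hXE : X ⊆ E₂ := hX.trans hYE₂
    have h1 := hcl X hX
    rw [hPdual _ (union_subset hXE hZ), hPdual _ hZ] at h1
    have h3 := hEX X hXE
    omega
  -- all stages are clean
  have hmid : ∀ G' ⊆ G, ∀ X ⊆ Y,
      rk (M ／ (C₂ \ G')) (X ∪ Z) = rk (M ／ C₂) X + rk (M ／ (C₂ \ G')) Z := by
    intro G' hG' X hX
    have hB1 : C₂ \ G' ⊆ M.E := sdiff_subset.trans hC₂E
    have q1 : Quo (M ／ (C₂ \ G)) (M ／ (C₂ \ G')) E₂ :=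
      quo_mono (sdiff_subset_sdiff_right hG') hB1
        (fun z hz => ⟨hE₂ hz, fun h => h.1.2 (Or.inl hz)⟩)
    have q2 : Quo (M ／ (C₂ \ G')) (M ／ C₂) E₂ := quo_mono sdiff_subset hC₂E (hsub2 _ (subset_refl _))
    exact quo_mid q1 q2 hZ hYE₂ hs' hL' hX
  -- the plain block of side 2
  have hσn : σ ⊆ rect x' y' n n :=
    hr.trans (rect_sub (by omega) (by omega) (by omega) (by omega))
  set Y' := blk S₂ e₂ a b t with hY'
  have hY'S₂ : Y' ⊆ S₂ := blk_sub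
  have hY'E₂ : Y' ⊆ E₂ := hY'S₂.trans hS₂E₂
  have hY'E : Y' ⊆ M.E := hY'E₂.trans hE₂
  have hY'ins : Y' ⊆ ins E₂ e₂ σ := fun z hz => ⟨hY'E₂ hz, hz.2⟩
  have hY'Y : Y' ⊆ Y := by
    intro z hz
    have h1 := hY'ins hz
    refine ⟨h1.1, ?_⟩
    induction hh : e₂ z with
    | _ p q =>
      exact ⟨p, h1.2 p (by rw [hh]; simp), by simp⟩
  have hYd : Disjoint S₁ Y' := hE.mono hS₁E₁ hY'E₂
  have hYd1 : Disjoint E₁ Y' := hE.mono_right hY'E₂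
  have k3 : KGe M✶ Y' S₁ K := BQ.KGe.mono_n (BQ.kge_blk (M := M✶)
    (fun z hz => ⟨hD₂E hz, fun h => (hD₂ hz).2 (hS₂E₂ h)⟩) (by exact hS₂E₂.trans hE₂)
    (hE.symm.mono hS₂E₂ hS₁E₁) (Bic_sub hB₂ hS₂E₂) hG₂.grd hσn (by omega) k2) (by omega)
  set D' := D₂ ∪ (E₂ \ (Z ∪ Y)) with hD'
  have hD'E : D' ⊆ M.E := by
    rintro z (hz | hz)
    · exact hD₂E hz
    · exact hE₂ hz.1
  have hD'Y' : Disjoint D' Y' := by
    rw [Set.disjoint_left]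
    rintro z (hz | hz) hz'
    · exact (hD₂ hz).2 (hY'E₂ hz')
    · exact hz.2 (Or.inr (hY'Y hz'))
  -- the stages
  have stg : ∀ G' ⊆ G, (M ＼ G').Finite ∧ E₁ ⊆ (M ＼ G').E ∧ Y' ⊆ (M ＼ G').E ∧
      C₁ ⊆ (M ＼ G').E \ E₁ ∧ D' ⊆ (M ＼ G').E \ Y' ∧ (M ＼ G')✶ = M✶ ／ G' ∧
      Bic (M ＼ G' ／ C₁) E₁ e₁ ∧ Bic ((M ＼ G')✶ ／ D') Y' e₂ ∧ M ＼ G' ≤m M := by
    intro G' hG'
    have fin2 : (M ＼ G').Finite := BQ.fin_delete G'
    have hE₁P : E₁ ⊆ (M ＼ G').E := fun z hz => ⟨hE₁ hz, fun h => (hGc z (hG' h)).2.1 hz⟩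
    have hYP : Y' ⊆ (M ＼ G').E := fun z hz =>
      ⟨hY'E hz, fun h => (hGc z (hG' h)).2.2.2.1 (hY'E₂ hz)⟩
    have hdual : (M ＼ G')✶ = M✶ ／ G' := Matroid.dual_delete M G'
    refine ⟨fin2, hE₁P, hYP, ?_, ?_, hdual, ?_, ?_, ?_⟩
    · exact fun z hz => ⟨⟨hC₁E hz, fun h => (hGc z (hG' h)).2.2.1 hz⟩, (hC₁ hz).2⟩
    · intro z hz
      refine ⟨⟨hD'E hz, ?_⟩, fun h => Set.disjoint_left.1 hD'Y' hz h⟩
      intro h
      rcases hz with hz | hz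
      · exact (hGc z (hG' h)).2.2.2.2 hz
      · exact (hGc z (hG' h)).2.2.2.1 hz.1
    · have hdd : Disjoint C₁ G' := by
        rw [Set.disjoint_left]
        exact fun z hz hz2 => (hGc z (hG' hz2)).2.2.1 hz
      have c2 : M ＼ G' ／ C₁ = M ／ C₁ ＼ G' := by
        rw [Matroid.contract_delete_comm M hdd]
      rw [c2]
      have fin3 : (M ／ C₁ ＼ G').Finite := BQ.fin_delete G'
      have hY1 : E₁ ⊆ (M ／ C₁).E \ G' := fun z hz =>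
        ⟨hE₁C hz, fun h => (hGc z (hG' h)).2.1 hz⟩
      refine Bic_of_rk hB₁ hY1 ?_
      intro X hX
      rw [rk_delete (hX.trans hY1)]
    · rw [hdual, Matroid.contract_contract]
      exact Bic_sub (stage_co hE₂ hD₂ hB₂ hZ hdZ (hG'.trans hGC₂) (hmid G' hG')) hY'ins
    · have := Matroid.contract_delete_isMinor M ∅ G'
      rwa [Matroid.contract_empty] at this
  have hGM : G ⊆ M✶.E \ (Y' ∪ S₁) := by
    intro z hz
    refine ⟨hGE hz, ?_⟩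
    rintro (h | h)
    · exact (hGc z hz).2.2.2.1 (hY'E₂ h)
    · exact (hGc z hz).2.1 (hS₁E₁ h)
  have hGY : Grd Y' e₂ a b t t := Grd_sub hG₂.grd hσn
  rcases cont (M := M✶) (X := Y') (Y := S₁) (by exact hY'E) (by exact hS₁E) hYd.symm hGM k3 with
    ⟨G', hG', ka, kb⟩ | ka
  · -- sparse case
    obtain ⟨fin2, s1, s2, s3, s4, s5, s6, s7, s8⟩ := stg G' hG'
    rw [← s5] at ka kb
    have fin2' : (M ＼ G')✶.Finite := by infer_instance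
    have ka' : KGe (M ＼ G') S₁ Y' K := by
      have := ka.dual (by exact s2)
      rwa [Matroid.dual_dual] at this
    have hrec1 : rect x y t t ⊆ rect x y n n :=
      rect_sub (le_refl _) (by omega) (le_refl _) (by omega)
    set R := blk S₁ e₁ x y t with hR
    have hRS₁ : R ⊆ S₁ := blk_sub
    have hRE₁ : R ⊆ E₁ := hRS₁.trans hS₁E₁
    refine hum_mono s8 (hs₀ t (by omega) t (by omega) (M ＼ G') R Y' C₁ D' (hRE₁.trans s1) s2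
      (hYd.mono_left hRS₁) ?_ s4 ?_ ?_ ?_ ?_)
    · exact fun z hz => ⟨(s3 hz).1, fun h => (s3 hz).2 (hRE₁ h)⟩
    · exact Grd.toPGrid (by omega) (Bic_sub s6 hRE₁) (Grd_sub hG₁.grd hrec1)
    · exact Grd.toPGrid (by omega) s7 hGY
    · refine BQ.KGe.mono_n (BQ.kge_blk (t := κ₀) (C := C₁) (M := M ＼ G') ?_ (hS₁E₁.trans s1) hYd
        (Bic_sub s6 hS₁E₁) hG₁.grd hrec1 (by omega) (BQ.KGe.mono_n ka' (by omega))) (by omega)
      exact fun z hz => ⟨(s3 hz).1, fun h => (s3 hz).2 (hS₁E₁ h)⟩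
    · intro hcon
      exact kb ((BQ.KGe.mono_left hcon hRS₁).dual (hS₁E₁.trans s1))
  · -- few conflicts of the second kind
    obtain ⟨fin2, s1, s2, s3, s4, s5, s6, s7, s8⟩ := stg G (subset_refl _)
    rw [← s5] at ka
    have fin2' : (M ＼ G)✶.Finite := by infer_instance
    have ka' : KGe (M ＼ G) S₁ Y' (K + 1) := by
      have := ka.dual (by exact s2)
      rwa [Matroid.dual_dual] at this
    refine hum_mono s8 (hnA n (by omega) (M ＼ G) E₁ S₁ Y' C₁ D' e₁ e₂ w₁ x y a b s1 s2 hYd1 s3 s4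
      s6 hG₁ s7 hGY ?_ (BQ.KGe.mono_n ka' (by omega)))
    set B := C₁ ∪ ((M ＼ G).E \ (E₁ ∪ C₁ ∪ (Y' ∪ D'))) with hBdef
    have hBE : B ⊆ (M ＼ G).E := union_subset (s3.trans sdiff_subset) sdiff_subset
    have hBG : B ⊆ M.E \ G := hBE
    have hBM : B ⊆ M.E := hBG.trans sdiff_subset
    have hBsub : B ⊆ (C₁ ∪ F) ∪ (Z ∪ Y) := by
      rintro z (h | h)
      · exact Or.inl (Or.inl h)
      · have hzG : z ∈ M.E \ G := h.1
        have h1 : z ∉ E₁ := fun h' => h.2 (Or.inl (Or.inl h'))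
        have h2 : z ∉ C₁ := fun h' => h.2 (Or.inl (Or.inr h'))
        have h3 : z ∉ D' := fun h' => h.2 (Or.inr (Or.inr h'))
        by_cases hz : z ∈ E₂
        · right
          by_contra h5
          exact h3 (Or.inr ⟨hz, h5⟩)
        · have h4 : z ∈ F ∪ G := by
            rw [← hFG]
            refine ⟨hzG.1, ?_⟩
            rintro ((h' | h') | (h' | h'))
            · exact h1 h'
            · exact h2 h'
            · exact hz h'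
            · exact h3 (Or.inl h')
          rcases h4 with h4 | h4
          · exact Or.inl (Or.inr h4)
          · exact absurd h4 hzG.2
    have hFE : F ⊆ M.E := fun z hz => (hFc z hz).1
    have hE₁B : E₁ ⊆ M.E \ B := by
      intro z hz
      refine ⟨hE₁ hz, ?_⟩
      rintro (h | h)
      · exact (hC₁ h).2 hz
      · exact h.2 (Or.inl (Or.inl hz))
    have hYc : Y.ncard ≤ qY := pl_rect_ncard hG₂ hr
    have r1 : rk (M ＼ G ／ C₁) E₁ + rk (M ＼ G) C₁ = rk (M ＼ G) (E₁ ∪ C₁) :=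
      BQ.rk_con (M := M ＼ G) (C := C₁) (X := E₁) (s3.trans sdiff_subset)
        (fun z hz => ⟨s1 hz, fun h => (s3 h).2 hz⟩)
    have r2 : rk (M ＼ G ／ B) E₁ + rk (M ＼ G) B = rk (M ＼ G) (E₁ ∪ B) :=
      BQ.rk_con (M := M ＼ G) (C := B) (X := E₁) hBE
        (fun z hz => ⟨s1 hz, (hE₁B hz).2⟩)
    have r3 := BQ.rk_con (M := M) (C := C₁) (X := E₁) hC₁E hE₁C
    have r4 := BQ.rk_con (M := M) (C := C₁ ∪ F) (X := E₁) (union_subset hC₁E hFE)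
      (fun z hz => ⟨hE₁ hz, fun h => h.elim (fun h => (hC₁ h).2 hz) (fun h => (hFc z h).2.1 hz)⟩)
    have d1 : rk (M ＼ G) C₁ = rk M C₁ := rk_delete (s3.trans sdiff_subset)
    have d2 : rk (M ＼ G) (E₁ ∪ C₁) = rk M (E₁ ∪ C₁) :=
      rk_delete (union_subset s1 (s3.trans sdiff_subset))
    have d3 : rk (M ＼ G) B = rk M B := rk_delete hBG
    have d4 : rk (M ＼ G) (E₁ ∪ B) = rk M (E₁ ∪ B) := rk_delete (union_subset s1 hBG)
    have hZYf : (Z ∪ Y).Finite := hZf.union hYf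
    have hZYc : (Z ∪ Y).ncard ≤ Z.ncard + Y.ncard := Set.ncard_union_le Z Y
    -- submodularity
    have t1 := rk_submod M (E₁ ∪ B) ((C₁ ∪ F) ∪ (Z ∪ Y))
    have t2 : rk M B ≤ rk M ((E₁ ∪ B) ∩ ((C₁ ∪ F) ∪ (Z ∪ Y))) :=
      rk_mono M (fun z hz => ⟨Or.inr hz, hBsub hz⟩)
    have t3 : rk M (E₁ ∪ (C₁ ∪ F)) ≤ rk M ((E₁ ∪ B) ∪ ((C₁ ∪ F) ∪ (Z ∪ Y))) :=
      rk_mono M (union_subset_union subset_union_left subset_union_left)
    have t4 : rk M ((C₁ ∪ F) ∪ (Z ∪ Y)) ≤ rk M (C₁ ∪ F) + (Z ∪ Y).ncard := rk_union_le M hZYf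
    omega

end BICS
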