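import Pool.Agent.Helper21.STAR.Star

/-!
Lemma STAR with one more conclusion (helper74, after helper21).  (Problem MP_5165fa_co.)
-/

open Set BIC
open scoped Matroid

namespace BICS

universe u

/-- **Lemma STAR** (helper21), from Lemma EXT, with the conclusion that `Z` and the square are skew in
the cobicircular matroid. -/
theorem thmStarS_of (k q t : ℕ) (ext : ∀ s : ℕ, ∃ m : ℕ, ExtStmt.{u} k s m) :
    ∃ n₀ : ℕ, ∀ n ≥ n₀, ∀ {α : Type u} (P : Matroid α) [P.Finite] (E S : Set α)
      (ends : α → Sym2 (ℕ × ℕ)) (w : ℕ × ℕ) (x y : ℕ), E ⊆ P.E → Bic P E ends →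
      GrdP E S ends w x y n → rk P E + rk P (P.E \ E) ≤ rk P P.E + q →
      HasUniformMinor P k ∨ ∃ Z ⊆ E, Z.ncard ≤ 5 * k ∧ ∃ a b,
        rect a b t t ⊆ rect (x + 1) (y + 1) (n - 2) (n - 2) ∧
        Disjoint Z (pl E ends (rect a b t t)) ∧
        (∀ X ⊆ pl E ends (rect a b t t),
          rk P (E \ (X ∪ Z)) + rk P E = rk P (E \ X) + rk P (E \ Z)) ∧
        ∀ X ⊆ pl E ends (rect a b t t),
          rk P✶ (X ∪ Z) + rk P E = rk P✶ Z + X.ncard + rk P (E \ X) := by
  classical
  choose mE hE using ext
  obtain ⟨Sc, hSc⟩ := stable (fun s => mE s + s + k * (s + 1) + t + 1)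
  refine ⟨Sc q 1 + 3, ?_⟩
  intro n hn₀ α P _ E S ends w x y hEP hB hG hc
  have hn : 3 ≤ n := by omega
  set N : Matroid α := P✶ ／ (P.E \ E) with hNd
  have fin1 : N.Finite := ⟨(P✶).ground_finite.subset ((P✶).contract_ground_subset_ground _)⟩
  have hN : ∀ X ⊆ E, rk N X + rk P E = rk P (E \ X) + X.ncard := fun X hX => rk_cob hEP hX
  have hQ : Quo P✶ N E := quo_cob hEP
  have hL : ∀ X ⊆ E, rk P✶ X + rk P P.E = rk P (P.E \ X) + X.ncard := fun X hX =>
    rk_dual (hX.trans hEP)
  have h0 : ∀ (M : Matroid α) [M.Finite], rk M (∅ : Set α) = 0 := by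
    intro M _
    have := rk_le_ncard M (X := (∅ : Set α)) Set.finite_empty
    simpa using this
  have hle : ∀ {X : Set α}, X ⊆ E → rk N X ≤ rk P✶ X := by
    intro X hX
    have h1 := hQ ∅ X (Set.empty_subset _) hX
    have h2 := h0 N
    have h3 := h0 P✶
    omega
  obtain ⟨⟨a, b, r⟩, hr, s, hs1, hF, hst⟩ := hSc
    (fun p q : ℕ × ℕ × ℕ => rect p.1 p.2.1 p.2.2 p.2.2 ⊆ rect q.1 q.2.1 q.2.2 q.2.2)
    (fun p => p.2.2)
    (fun p => rk P✶ (pl E ends (rect p.1 p.2.1 p.2.2 p.2.2)) -
      rk N (pl E ends (rect p.1 p.2.1 p.2.2 p.2.2)))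
    (fun _ => subset_refl _) (fun _ _ _ h1 h2 => h1.trans h2)
    (by
      intro p q hpq
      have h1 := hQ _ _ (pl_mono (E := E) (ends := ends) hpq) pl_sub
      omega)
    q 1 (x + 1, y + 1, n - 2) (by
      simp only
      have h1 := hQ (pl E ends (rect (x + 1) (y + 1) (n - 2) (n - 2))) E pl_sub (subset_refl _)
      have h2 := hN E (subset_refl _)
      have h3 := hL E (subset_refl _)
      have h4 := h0 P
      rw [sdiff_self, h4] at h2
      omega) (by simp only; omega)
  simp only at hr hF hst
  set u := rk P✶ (pl E ends (rect a b r r)) - rk N (pl E ends (rect a b r r)) with hu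
  -- all sub-squares of side at least `s` have defect exactly `u`
  have key : ∀ a' b' r', rect a' b' r' r' ⊆ rect a b r r → s ≤ r' →
      rk P✶ (pl E ends (rect a' b' r' r')) = rk N (pl E ends (rect a' b' r' r')) + u := by
    intro a' b' r' h1 h2
    have h3 := hst (a', b', r') h1 h2
    simp only at h3
    have h4 := hle (pl_sub (E := E) (ends := ends) (U := rect a' b' r' r'))
    omega
  have hub := key a b r (subset_refl _) (by omega)
  by_cases huk : k ≤ u
  · left
    have hms : rect a b (mE s) (mE s) ⊆ rect a b r r := rect_sub (le_refl _) (by omega)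
      (le_refl _) (by omega)
    refine hE s P E S ends w x y n a b u hEP hB hG (hms.trans hr) huk ?_
    intro a' b' c' hc' hrc
    have h1 := key a' b' c' (hrc.trans hms) hc'
    have h2 := hN _ (pl_sub (E := E) (ends := ends) (U := rect a' b' c' c'))
    have h3 := hL _ (pl_sub (E := E) (ends := ends) (U := rect a' b' c' c'))
    omega
  · right
    push Not at huk
    have hus : u * (s + 1) ≤ k * (s + 1) := Nat.mul_le_mul_right (s + 1) huk.le
    have hZr : rect a b (u * (s + 1)) s ⊆ rect a b r r := rect_sub (le_refl _) (by omega)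
      (le_refl _) (by omega)
    have hVr : rect a b (u * (s + 1) - 1) s ⊆ rect a b r r := rect_sub (le_refl _) (by omega)
      (le_refl _) (by omega)
    have hWr : rect (a + u * (s + 1)) b t t ⊆ rect a b r r := rect_sub (by omega) (by omega)
      (le_refl _) (by omega)
    obtain ⟨Z, hZ, hZc, hZd⟩ := star_tiles (a := a) (b := b) (s := s) (u := u) hN hQ hB hG hn u
      (le_refl _) (hZr.trans hr) (by
        intro i hi
        have h1 : i * (s + 1) + (s + 1) ≤ u * (s + 1) := by
          calc i * (s + 1) + (s + 1) = (i + 1) * (s + 1) := by ring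
            _ ≤ u * (s + 1) := Nat.mul_le_mul_right _ hi
        have h2 := key (a + i * (s + 1)) b s (rect_sub (by omega) (by omega) (le_refl _)
          (by omega)) (le_refl _)
        omega)
    have hZE : Z ⊆ E := hZ.trans pl_sub
    -- `Z` is separated from the square
    have hsep : Disjoint Z (pl E ends (rect (a + u * (s + 1)) b t t)) ∧
        ∀ X ⊆ pl E ends (rect (a + u * (s + 1)) b t t), rk N (Z ∪ X) = rk N Z + rk N X := by
      rcases Nat.eq_zero_or_pos u with h | h
      · have hZ0 : Z = ∅ := by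
          have : Z.ncard = 0 := by omega
          exact (Set.ncard_eq_zero ((P.ground_finite.subset hEP).subset hZE)).1 this
        rw [hZ0]
        refine ⟨Set.empty_disjoint _, fun X _ => ?_⟩
        rw [Set.empty_union, h0, zero_add]
      · have h5 : 1 ≤ u * (s + 1) := Nat.mul_pos h (by omega)
        have h6 := adj_sep (a := a) (b := b) (c := u * (s + 1) - 1) (d := s)
          (a' := a + u * (s + 1)) (b' := b) (c' := t) (d' := t) (by omega)
        have hin : ∀ {W : Set (ℕ × ℕ)}, W ⊆ rect (x + 1) (y + 1) (n - 2) (n - 2) →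
            W ⊆ rect x y n n := fun hW => hW.trans (rect_sub (by omega) (by omega) (by omega)
              (by omega))
        refine ⟨(pl_disj (ends := ends) hG (hin (hVr.trans hr)) (hin (hWr.trans hr)) h6.1
          h6.2).mono_left hZ, fun X hX => ?_⟩
        exact skew_pl hN hB hG hn (gd_rect (hVr.trans hr)) (gd_rect (hWr.trans hr))
          (gd_two (hVr.trans hr) (hWr.trans hr) (by omega)) h6.1 h6.2 hZ hX
    refine ⟨Z, hZE, by omega, a + u * (s + 1), b, hWr.trans hr, hsep.1, ?_, ?_⟩
    · intro X hX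
      have hXE : X ⊆ E := hX.trans pl_sub
      have h1 := hsep.2 X hX
      have h4 := hN X hXE
      have h5 := hN Z hZE
      have h6 := hN (X ∪ Z) (union_subset hXE hZE)
      have hXf : X.Finite := (P.ground_finite.subset hEP).subset hXE
      have hZf : Z.Finite := (P.ground_finite.subset hEP).subset hZE
      have h7 : (X ∪ Z).ncard = X.ncard + Z.ncard :=
        Set.ncard_union_eq (hsep.1.symm.mono_left hX) hXf hZf
      rw [union_comm Z X] at h1
      omega
    intro X hX
    have hXE : X ⊆ E := hX.trans pl_sub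
    have h1 := hsep.2 X hX
    have h2 := hQ Z (Z ∪ X) subset_union_left (union_subset hZE hXE)
    have h3 := hQ (Z ∪ X) (pl E ends (rect a b r r))
      (union_subset (hZ.trans (pl_mono hVr)) (hX.trans (pl_mono hWr))) pl_sub
    have h4 := hN X hXE
    rw [union_comm X Z]
    omega


end BICS
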